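import Mathlib

/-!
# Determinants of matrices with short rows

A rational vector is short if its positive entries add up to at most one and its negative entries
add up to at least minus one.  A square matrix all of whose rows are short has determinant of
absolute value at most one.
-/

namespace Q6.Add

open Finset

/-- Nonnegative vectors with sum at most one. -/
def Subp {m : ℕ} (p : Fin m → ℚ) : Prop := (∀ i, 0 ≤ p i) ∧ ∑ i, p i ≤ 1

/-- Differences of two sub-probability vectors. -/
def Short {m : ℕ} (r : Fin m → ℚ) : Prop := ∃ p q : Fin m → ℚ, Subp p ∧ Subp q ∧ r = p - q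

/-- Merge the coordinate `a` into the coordinate `b` (or forget it). -/
def merge {m : ℕ} (a : Fin (m + 1)) (b : Option (Fin (m + 1))) (p : Fin (m + 1) → ℚ) :
    Fin m → ℚ :=
  fun c => p (a.succAbove c) + if some (a.succAbove c) = b then p a else 0

theorem Subp.merge {m : ℕ} (a : Fin (m + 1)) (b : Option (Fin (m + 1)))
    {p : Fin (m + 1) → ℚ} (hp : Subp p) : Subp (merge a b p) := by
  refine ⟨fun c => ?_, ?_⟩
  · unfold Q6.Add.merge
    have h1 := hp.1 (a.succAbove c)
    have h2 := hp.1 a
    split_ifs <;> linarith
  · unfold Q6.Add.merge
    rw [sum_add_distrib]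
    have h1 : ∑ i, p i = p a + ∑ c, p (a.succAbove c) := Fin.sum_univ_succAbove p a
    have h2 : ∑ c : Fin m, (if some (a.succAbove c) = b then p a else 0) ≤ p a := by
      by_cases hb : ∃ c, some (a.succAbove c) = b
      · obtain ⟨c0, hc0⟩ := hb
        rw [sum_eq_single c0]
        · simp [hc0]
        · intro c _ hc
          rw [if_neg]
          intro h
          rw [← hc0] at h
          exact hc (Fin.succAbove_right_injective (Option.some_injective _ h))
        · intro h; exact absurd (mem_univ _) h
      · rw [sum_eq_zero]
        · exact hp.1 a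
        · intro c _
          rw [if_neg]
          intro h
          exact hb ⟨c, h⟩
    linarith [hp.2]

theorem Short.merge {m : ℕ} (a : Fin (m + 1)) (b : Option (Fin (m + 1)))
    {r : Fin (m + 1) → ℚ} (hr : Short r) : Short (merge a b r) := by
  obtain ⟨p, q, hp, hq, rfl⟩ := hr
  refine ⟨_, _, hp.merge a b, hq.merge a b, ?_⟩
  funext c
  unfold Q6.Add.merge
  simp only [Pi.sub_apply]
  split_ifs <;> ring

/-- Vertices of the simplex. -/
def vert {m : ℕ} : Option (Fin m) → (Fin m → ℚ)
  | none => 0
  | some a => Pi.single a 1

/-- A linear functional on a difference of two sub-probability vectors is bounded by its values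
on differences of vertices. -/
theorem functional_le {m : ℕ} (l : (Fin m → ℚ) →ₗ[ℚ] ℚ) (C : ℚ)
    (h : ∀ a b : Option (Fin m), l (vert a) - l (vert b) ≤ C) {r : Fin m → ℚ} (hr : Short r) :
    l r ≤ C := by
  obtain ⟨p, q, hp, hq, rfl⟩ := hr
  obtain ⟨a, ha⟩ := Finite.exists_max (fun a : Option (Fin m) => l (vert a))
  obtain ⟨b, hb⟩ := Finite.exists_min (fun a : Option (Fin m) => l (vert a))
  have hsum : ∀ s : Fin m → ℚ, l s = ∑ i, s i * l (vert (some i)) := by
    intro s
    conv_lhs => rw [pi_eq_sum_univ' s]
    rw [map_sum]
    refine sum_congr rfl fun i _ => ?_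
    rw [map_smul, smul_eq_mul]
    congr 2
  have h0a : 0 ≤ l (vert a) := by
    have := ha none
    simpa [vert] using this
  have h0b : l (vert b) ≤ 0 := by
    have := hb none
    simpa [vert] using this
  have h1 : l p ≤ l (vert a) := by
    rw [hsum p]
    calc ∑ i, p i * l (vert (some i)) ≤ ∑ i, p i * l (vert a) :=
          sum_le_sum fun i _ => mul_le_mul_of_nonneg_left (ha (some i)) (hp.1 i)
      _ = (∑ i, p i) * l (vert a) := by rw [sum_mul]
      _ ≤ 1 * l (vert a) := mul_le_mul_of_nonneg_right hp.2 h0a
      _ = l (vert a) := one_mul _
  have h2 : l (vert b) ≤ l q := by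
    rw [hsum q]
    calc l (vert b) = 1 * l (vert b) := (one_mul _).symm
      _ ≤ (∑ i, q i) * l (vert b) := mul_le_mul_of_nonpos_right hq.2 h0b
      _ = ∑ i, q i * l (vert b) := by rw [sum_mul]
      _ ≤ ∑ i, q i * l (vert (some i)) :=
          sum_le_sum fun i _ => mul_le_mul_of_nonneg_left (hb (some i)) (hq.1 i)
  rw [map_sub]
  linarith [h a b]

theorem det_row_single {m : ℕ} (M : Matrix (Fin (m + 1)) (Fin (m + 1)) ℚ) (a : Fin (m + 1))
    (h : M 0 = Pi.single a 1) :
    |M.det| = |(M.submatrix Fin.succ a.succAbove).det| := by
  rw [Matrix.det_succ_row_zero, sum_eq_single a]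
  · rw [h, Pi.single_eq_same, mul_one, abs_mul, abs_pow, abs_neg, abs_one, one_pow, one_mul]
  · intro j _ hj
    rw [h, Pi.single_eq_of_ne hj]
    ring
  · intro h; exact absurd (mem_univ _) h

/-- The determinant of a square matrix with short rows has absolute value at most one. -/
theorem det_le_one : ∀ (m : ℕ) (M : Matrix (Fin m) (Fin m) ℚ), (∀ i, Short (M i)) →
    |M.det| ≤ 1 := by
  intro m
  induction m with
  | zero => intro M _; simp
  | succ m ih =>
    intro M hM
    let l : (Fin (m + 1) → ℚ) →ₗ[ℚ] ℚ :=
      { toFun := fun r => (M.updateRow 0 r).det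
        map_add' := fun r s => Matrix.det_updateRow_add M 0 r s
        map_smul' := fun c r => Matrix.det_updateRow_smul M 0 c r }
    have hl : ∀ r, l r = (M.updateRow 0 r).det := fun r => rfl
    -- the basic case
    have hbasic : ∀ (a : Fin (m + 1)) (b : Option (Fin (m + 1))), some a ≠ b →
        |l (vert (some a) - vert b)| ≤ 1 := by
      intro a b hab
      rw [hl]
      cases b with
      | none =>
        have h1 : (M.updateRow 0 (vert (some a) - vert none)) 0 = Pi.single a 1 := by
          rw [Matrix.updateRow_self]
          simp [vert]
        rw [det_row_single _ a h1]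
        apply ih
        intro i
        have h2 : ((M.updateRow 0 (vert (some a) - vert none)).submatrix Fin.succ a.succAbove) i =
            merge a none (M i.succ) := by
          funext c
          simp [Matrix.submatrix_apply, merge]
        rw [h2]
        exact (hM i.succ).merge a none
      | some b =>
        have hab' : a ≠ b := fun h => hab (by rw [h])
        set N := M.updateRow 0 (vert (some a) - vert (some b)) with hN
        have hdet := Matrix.det_updateCol_add_smul_self N (i := b) (j := a) hab'.symm 1
        rw [← hdet]
        have hN0 : N 0 = vert (some a) - vert (some b) := by rw [hN, Matrix.updateRow_self]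
        have h1 : (N.updateCol b (fun k => N k b + (1 : ℚ) • N k a)) 0 = Pi.single a 1 := by
          funext j
          by_cases hj : j = b
          · subst hj
            rw [Matrix.updateCol_self, hN0]
            simp [vert, hab', hab'.symm]
          · rw [Matrix.updateCol_ne hj, hN0]
            by_cases hja : j = a
            · subst hja
              simp [vert, hab']
            · simp [vert, hj, hja]
        rw [det_row_single _ a h1]
        apply ih
        intro i
        have h2 : ((N.updateCol b (fun k => N k b + (1 : ℚ) • N k a)).submatrix Fin.succ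
            a.succAbove) i = merge a (some b) (M i.succ) := by
          funext c
          have hNi : ∀ j, N i.succ j = M i.succ j := by
            intro j
            rw [hN, Matrix.updateRow_ne (Fin.succ_ne_zero i)]
          rw [Matrix.submatrix_apply]
          unfold Q6.Add.merge
          by_cases hc : a.succAbove c = b
          · rw [hc, Matrix.updateCol_self, hNi, hNi, if_pos rfl, one_smul]
          · rw [Matrix.updateCol_ne hc, hNi, if_neg (fun h => hc (Option.some_injective _ h)),
              add_zero]
        rw [h2]
        exact (hM i.succ).merge a (some b)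
    have hall : ∀ a b : Option (Fin (m + 1)), |l (vert a) - l (vert b)| ≤ 1 := by
      intro a b
      rw [← map_sub]
      cases a with
      | none =>
        cases b with
        | none => simp
        | some b =>
          have h1 := hbasic b none (by simp)
          rw [← abs_neg, ← map_neg, neg_sub]
          exact h1
      | some a =>
        by_cases hab : some a = b
        · rw [← hab, sub_self, map_zero, abs_zero]
          exact zero_le_one
        · exact hbasic a b hab
    have hself : l (M 0) = M.det := by
      rw [hl, Matrix.updateRow_eq_self]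
    rw [← hself, abs_le]
    constructor
    · have h1 := functional_le (-l) 1 (fun a b => by
        rw [LinearMap.neg_apply, LinearMap.neg_apply]
        have := neg_le_abs (l (vert a) - l (vert b))
        linarith [hall a b]) (hM 0)
      rw [LinearMap.neg_apply] at h1
      linarith
    · exact functional_le l 1 (fun a b => (le_abs_self _).trans (hall a b)) (hM 0)

/-- Weighted form. -/
theorem det_le_prod {m : ℕ} (M : Matrix (Fin m) (Fin m) ℚ) (w : Fin m → ℚ)
    (hw : ∀ i, 0 ≤ w i) (hM : ∀ i, ∃ s, Short s ∧ M i = w i • s) :
    |M.det| ≤ ∏ i, w i := by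
  choose s hs hMs using hM
  have h1 : M = Matrix.of (fun i j => w i * (Matrix.of s) i j) := by
    ext i j
    rw [hMs i]
    simp
  rw [h1, Matrix.det_mul_column, abs_mul]
  have h2 : |∏ i, w i| = ∏ i, w i := abs_of_nonneg (prod_nonneg fun i _ => hw i)
  rw [h2]
  have h3 := det_le_one m (Matrix.of s) hs
  have h4 : 0 ≤ ∏ i, w i := prod_nonneg fun i _ => hw i
  calc (∏ i, w i) * |(Matrix.of s).det| ≤ (∏ i, w i) * 1 := mul_le_mul_of_nonneg_left h3 h4
    _ = _ := mul_one _

end Q6.Add
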