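import Pool.Agent.Q6.Add.Short

/-!
# Choice of a good system of rows
-/

namespace Q6.Add

open Finset Submodule

/-- Cast an integer vector to a rational vector. -/
def cst {n : ℕ} (h : Fin n → ℤ) : Fin n → ℚ := fun i => (h i : ℚ)

theorem cst_single {n : ℕ} (c : Fin n) : cst (Pi.single c 1 : Fin n → ℤ) = Pi.single c 1 := by
  funext i
  by_cases h : i = c
  · subst h; simp [cst]
  · simp [cst, h]

theorem core (n : ℕ) (H : Set (Fin n → ℤ)) (u0 : Fin n) (x : Fin n → ℂ) (hx0 : x u0 = 1)
    (hx : ∀ h ∈ H, ∑ i, (h i : ℂ) * x i = 0) :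
    ∃ (F : Finset (Fin n)) (ρ : Fin n) (M : Matrix (Fin n) (Fin n) ℤ), ρ ∉ F ∧
      M ρ = Pi.single u0 1 ∧
      (∀ i ∈ F, ∃ c, M i = Pi.single c 1) ∧ (∀ i, i ∉ F → i ≠ ρ → M i ∈ H) ∧ M.det ≠ 0 ∧
      (∀ y : Fin n → ℚ, (∀ i, i ∉ F → i ≠ ρ → ∑ j, (M i j : ℚ) * y j = 0) →
        ∀ h ∈ H, ∑ j, (h j : ℚ) * y j = 0) ∧
      ∀ i ∈ F, ∀ j, |(M.updateRow i (Pi.single j 1)).det| ≤ |M.det| := by
  classical
  obtain ⟨b, hbH, hbspan, hbli⟩ := exists_linearIndependent ℚ (cst '' H)
  set e0 : Fin n → ℚ := Pi.single u0 1 with he0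
  have hvan : ∀ v ∈ span ℚ (cst '' H), ∑ i, ((v i : ℚ) : ℂ) * x i = 0 := by
    intro v hv
    induction hv using span_induction with
    | mem v hv =>
      obtain ⟨h, hh, rfl⟩ := hv
      have := hx h hh
      simpa [cst] using this
    | zero => simp
    | add v w _ _ h1 h2 =>
      simp only [Pi.add_apply, Rat.cast_add, add_mul, sum_add_distrib, h1, h2, add_zero]
    | smul c v _ h1 =>
      simp only [Pi.smul_apply, smul_eq_mul, Rat.cast_mul, mul_assoc]
      rw [← mul_sum, h1, mul_zero]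
  have hnot : e0 ∉ span ℚ b := by
    rw [hbspan]
    intro hmem
    have h1 := hvan e0 hmem
    rw [sum_eq_single u0] at h1
    · rw [he0, Pi.single_eq_same, hx0] at h1
      norm_num at h1
    · intro j _ hj
      rw [he0, Pi.single_eq_of_ne hj]
      norm_num
    · intro h; exact absurd (mem_univ _) h
  have hli1 : LinearIndepOn ℚ id (insert e0 b) := LinearIndepOn.id_insert hbli hnot
  obtain ⟨B, hBT, hsB, hTB, hBli⟩ := exists_linearIndepOn_id_extension hli1
    (Set.subset_union_left (s := insert e0 b) (t := Set.range fun c : Fin n => Pi.single c (1 : ℚ)))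
  have hBtop : ⊤ ≤ span ℚ B := by
    rw [← (Pi.basisFun ℚ (Fin n)).span_eq]
    apply span_le.2
    rintro v ⟨c, rfl⟩
    apply hTB
    right
    refine ⟨c, ?_⟩
    simp
  have hBli' : LinearIndependent ℚ ((↑) : B → (Fin n → ℚ)) := hBli
  let bas : Module.Basis B ℚ (Fin n → ℚ) := Module.Basis.mk hBli' (by
    rw [Subtype.range_coe_subtype]
    exact hBtop)
  have hfin : Finite B := Module.Finite.finite_basis bas
  have hft : Fintype B := Fintype.ofFinite B
  have hcard : Fintype.card B = n := by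
    have := Module.finrank_eq_card_basis bas
    simpa using this.symm
  let e : Fin n ≃ B := (Fintype.equivFinOfCardEq hcard).symm
  have he0B : e0 ∈ B := hsB (Set.mem_insert _ _)
  have hrow : ∀ i : Fin n, ∃ r : Fin n → ℤ, cst r = (e i : Fin n → ℚ) ∧
      ((e i : Fin n → ℚ) = e0 → r = Pi.single u0 1) ∧
      ((e i : Fin n → ℚ) ∉ insert e0 b → ∃ c, r = Pi.single c 1) ∧
      ((e i : Fin n → ℚ) ∈ b → (e i : Fin n → ℚ) ≠ e0 → r ∈ H) := by
    intro i
    by_cases h1 : (e i : Fin n → ℚ) = e0
    · refine ⟨Pi.single u0 1, ?_, fun _ => rfl, ?_, ?_⟩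
      · rw [cst_single, h1]
      · intro h; exact absurd (h1 ▸ Set.mem_insert _ _) h
      · intro _ h; exact absurd h1 h
    · by_cases h2 : (e i : Fin n → ℚ) ∈ b
      · obtain ⟨h, hh, hhe⟩ := hbH h2
        refine ⟨h, hhe, fun h' => absurd h' h1, ?_, fun _ _ => hh⟩
        intro h'; exact absurd (Set.mem_insert_of_mem _ h2) h'
      · have h3 := hBT (e i).2
        rcases h3 with h3 | ⟨c, hc⟩
        · rcases h3 with h3 | h3
          · exact absurd h3 h1
          · exact absurd h3 h2
        · refine ⟨Pi.single c 1, ?_, fun h' => absurd h' h1, fun _ => ⟨c, rfl⟩,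
            fun h' => absurd h' h2⟩
          rw [cst_single]
          exact hc
  choose r hr1 hr2 hr3 hr4 using hrow
  set F : Finset (Fin n) := univ.filter (fun i => (e i : Fin n → ℚ) ∉ insert e0 b) with hF
  set ρ : Fin n := e.symm ⟨e0, he0B⟩ with hρ
  have heρ : (e ρ : Fin n → ℚ) = e0 := by
    rw [hρ, Equiv.apply_symm_apply]
  have hρF : ρ ∉ F := by
    rw [hF, mem_filter]
    push Not
    intro _
    rw [heρ]
    exact Set.mem_insert _ _
  have hnF : ∀ i, i ∉ F → i ≠ ρ → (e i : Fin n → ℚ) ∈ b ∧ (e i : Fin n → ℚ) ≠ e0 := by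
    intro i hi hiρ
    have h1 : (e i : Fin n → ℚ) ∈ insert e0 b := by
      by_contra h
      exact hi (by rw [hF, mem_filter]; exact ⟨mem_univ _, h⟩)
    have h2 : (e i : Fin n → ℚ) ≠ e0 := by
      intro h
      apply hiρ
      rw [hρ, Equiv.eq_symm_apply]
      exact Subtype.ext h
    rcases h1 with h1 | h1
    · exact absurd h1 h2
    · exact ⟨h1, h2⟩
  let Mg : (Fin n → Fin n) → Matrix (Fin n) (Fin n) ℤ :=
    fun g i => if i ∈ F then Pi.single (g i) 1 else r i
  have hg0 : ∃ g, (Mg g).det ≠ 0 := by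
    have h1 : ∀ i, ∃ c : Fin n, i ∈ F → r i = Pi.single c 1 := by
      intro i
      by_cases hi : i ∈ F
      · rw [hF, mem_filter] at hi
        obtain ⟨c, hc⟩ := hr3 i hi.2
        exact ⟨c, fun _ => hc⟩
      · exact ⟨u0, fun h => absurd h hi⟩
    choose g hg using h1
    refine ⟨g, ?_⟩
    have h2 : Mg g = Matrix.of r := by
      funext i
      by_cases hi : i ∈ F
      · simp only [Mg, if_pos hi]
        rw [← hg i hi]
        rfl
      · simp only [Mg, if_neg hi]
        rfl
    rw [h2]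
    have h3 : LinearIndependent ℚ (Matrix.of fun i => (e i : Fin n → ℚ)).row :=
      hBli'.comp e e.injective
    rw [Matrix.linearIndependent_rows_iff_isUnit, Matrix.isUnit_iff_isUnit_det] at h3
    intro h4
    have h5 : (Matrix.of fun i => (e i : Fin n → ℚ)) =
        (Matrix.of r).map (Int.castRingHom ℚ) := by
      ext i j
      rw [Matrix.of_apply, ← hr1 i]
      rfl
    rw [h5, ← RingHom.mapMatrix_apply, ← RingHom.map_det, h4, map_zero] at h3
    exact not_isUnit_zero h3
  have hne : Nonempty (Fin n → Fin n) := ⟨fun _ => u0⟩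
  obtain ⟨gs, hgs⟩ := Finite.exists_max (fun g => |(Mg g).det|)
  refine ⟨F, ρ, Mg gs, hρF, ?_, ?_, ?_, ?_, ?_, ?_⟩
  · simp only [Mg, if_neg hρF]
    exact hr2 ρ heρ
  · intro i hi
    exact ⟨gs i, by simp only [Mg, if_pos hi]⟩
  · intro i hi hiρ
    simp only [Mg, if_neg hi]
    obtain ⟨h1, h2⟩ := hnF i hi hiρ
    exact hr4 i h1 h2
  · intro h
    obtain ⟨g, hg⟩ := hg0
    have h1 := hgs g
    simp only [h, abs_zero] at h1
    exact hg (abs_eq_zero.1 (le_antisymm h1 (abs_nonneg _)))
  · intro y hy h hh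
    have h1 : ∀ v ∈ span ℚ b, ∑ j, v j * y j = 0 := by
      intro v hv
      induction hv using span_induction with
      | mem v hv =>
        have hvB : v ∈ B := hsB (Set.mem_insert_of_mem _ hv)
        have hvi : (e (e.symm ⟨v, hvB⟩) : Fin n → ℚ) = v := by rw [Equiv.apply_symm_apply]
        have hi1 : e.symm ⟨v, hvB⟩ ∉ F := by
          rw [hF, mem_filter]
          push Not
          intro _
          rw [hvi]
          exact Set.mem_insert_of_mem _ hv
        have hi2 : e.symm ⟨v, hvB⟩ ≠ ρ := by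
          intro h'
          have h2 : v = e0 := by
            rw [← hvi, h', heρ]
          exact hnot (h2 ▸ subset_span hv)
        have h3 := hy _ hi1 hi2
        simp only [Mg, if_neg hi1] at h3
        have h4 := hr1 (e.symm ⟨v, hvB⟩)
        rw [hvi] at h4
        rw [← h4]
        exact h3
      | zero => simp
      | add v w _ _ h1 h2 =>
        simp only [Pi.add_apply, add_mul, sum_add_distrib, h1, h2, add_zero]
      | smul c v _ h1 =>
        simp only [Pi.smul_apply, smul_eq_mul, mul_assoc]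
        rw [← mul_sum, h1, mul_zero]
    have h2 : cst h ∈ span ℚ b := by
      rw [hbspan]
      exact subset_span ⟨h, hh, rfl⟩
    exact h1 _ h2
  · intro i hi j
    have h1 : (Mg gs).updateRow i (Pi.single j 1) = Mg (Function.update gs i j) := by
      funext k
      by_cases hk : k = i
      · subst hk
        rw [Matrix.updateRow_self]
        simp only [Mg, if_pos hi, Function.update_self]
      · rw [Matrix.updateRow_ne hk]
        simp only [Mg]
        rw [Function.update_of_ne hk]
    rw [h1]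
    exact hgs _

/-- The determinant bound for integer matrices with unit rows and rows twice a short vector. -/
theorem det_bound {n : ℕ} (M : Matrix (Fin n) (Fin n) ℤ) (G : Finset (Fin n))
    (h1 : ∀ i ∈ G, ∃ c, M i = Pi.single c 1)
    (h2 : ∀ i, i ∉ G → ∃ s, Short s ∧ cst (M i) = (2 : ℚ) • s) :
    |M.det| ≤ 2 ^ (n - G.card) := by
  classical
  have h3 : |(M.map (Int.castRingHom ℚ)).det| ≤ ∏ i, (if i ∈ G then (1 : ℚ) else 2) := by
    apply det_le_prod
    · intro i; split_ifs <;> norm_num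
    · intro i
      by_cases hi : i ∈ G
      · obtain ⟨c, hc⟩ := h1 i hi
        refine ⟨Pi.single c 1, ⟨Pi.single c 1, 0, ⟨?_, ?_⟩, ⟨fun _ => le_refl _, by simp⟩, ?_⟩, ?_⟩
        · intro j
          by_cases hj : j = c
          · subst hj; simp
          · simp [hj]
        · simp
        · simp
        · rw [if_pos hi, one_smul, ← cst_single, ← hc]
          rfl
      · obtain ⟨s, hs, hsM⟩ := h2 i hi
        exact ⟨s, hs, by rw [if_neg hi, ← hsM]; rfl⟩
  rw [← RingHom.mapMatrix_apply, ← RingHom.map_det] at h3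
  have h4 : ∏ i, (if i ∈ G then (1 : ℚ) else 2) = 2 ^ (n - G.card) := by
    rw [prod_ite, prod_const_one, one_mul, prod_const]
    congr 1
    have h5 : (univ.filter fun i => i ∉ G) = Gᶜ := by
      ext i; simp
    rw [h5, card_compl, Fintype.card_fin]
  rw [h4] at h3
  have h6 : ((|M.det| : ℤ) : ℚ) ≤ ((2 ^ (n - G.card) : ℤ) : ℚ) := by
    rw [Int.cast_abs, Int.cast_pow]
    exact h3
  exact_mod_cast h6

end Q6.Add
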