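import Pool.Agent.Q6.Add.Core

/-!
# Small solutions of systems of equations `x i = 1` and `x i + x j = x k`
-/

namespace Q6.Add

open Finset

/-- The homogeneous rows attached to a system. -/
def rowsOf {n : ℕ} (U : Set (Fin n)) (A : Set (Fin n × Fin n × Fin n)) (u0 : Fin n) :
    Set (Fin n → ℤ) :=
  {h | ∃ i ∈ U, h = Pi.single i 1 - Pi.single u0 1} ∪
    {h | ∃ t ∈ A, h = Pi.single t.1 1 + Pi.single t.2.1 1 - Pi.single t.2.2 1}

theorem sum_single_mul {n : ℕ} {K : Type} [Field K] (y : Fin n → K) (c : Fin n) :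
    ∑ i, (((Pi.single c 1 : Fin n → ℤ) i : ℤ) : K) * y i = y c := by
  rw [sum_eq_single c]
  · simp
  · intro j _ hj
    simp [Pi.single_eq_of_ne hj]
  · intro h; exact absurd (mem_univ _) h

theorem rows_unit {n : ℕ} {K : Type} [Field K] (y : Fin n → K) (i u0 : Fin n) :
    ∑ l, (((Pi.single i 1 - Pi.single u0 1 : Fin n → ℤ) l : ℤ) : K) * y l = y i - y u0 := by
  simp only [Pi.sub_apply, Int.cast_sub, sub_mul, sum_sub_distrib, sum_single_mul]

theorem rows_add {n : ℕ} {K : Type} [Field K] (y : Fin n → K) (i j k : Fin n) :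
    ∑ l, (((Pi.single i 1 + Pi.single j 1 - Pi.single k 1 : Fin n → ℤ) l : ℤ) : K) * y l =
      y i + y j - y k := by
  simp only [Pi.sub_apply, Pi.add_apply, Int.cast_sub, Int.cast_add, sub_mul, add_mul,
    sum_sub_distrib, sum_add_distrib, sum_single_mul]

theorem subp_single {n : ℕ} (c : Fin n) (w : ℚ) (h0 : 0 ≤ w) (h1 : w ≤ 1) :
    Subp (Pi.single c w : Fin n → ℚ) := by
  refine ⟨fun i => ?_, ?_⟩
  · by_cases h : i = c
    · subst h; simpa using h0
    · simp [h]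
  · simpa using h1

theorem subp_two {n : ℕ} (c d : Fin n) :
    Subp ((1 / 2 : ℚ) • (Pi.single c 1 + Pi.single d 1) : Fin n → ℚ) := by
  have hc := subp_single c 1 zero_le_one le_rfl
  have hd := subp_single d 1 zero_le_one le_rfl
  refine ⟨fun i => ?_, ?_⟩
  · have h1 := hc.1 i
    have h2 := hd.1 i
    simp only [Pi.smul_apply, Pi.add_apply, smul_eq_mul]
    linarith
  · simp only [Pi.smul_apply, Pi.add_apply, smul_eq_mul]
    rw [← mul_sum, sum_add_distrib]
    have h1 := hc.2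
    have h2 := hd.2
    linarith

theorem rows_short {n : ℕ} (U : Set (Fin n)) (A : Set (Fin n × Fin n × Fin n)) (u0 : Fin n)
    (h : Fin n → ℤ) (hh : h ∈ rowsOf U A u0) : ∃ s, Short s ∧ cst h = (2 : ℚ) • s := by
  have hc : ∀ c i : Fin n, (((Pi.single c 1 : Fin n → ℤ) i : ℤ) : ℚ) =
      (Pi.single c 1 : Fin n → ℚ) i := fun c i => congrFun (cst_single c) i
  rcases hh with ⟨i, _, rfl⟩ | ⟨t, _, rfl⟩
  · refine ⟨Pi.single i (1 / 2) - Pi.single u0 (1 / 2),
      ⟨_, _, subp_single i (1 / 2) (by norm_num) (by norm_num),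
        subp_single u0 (1 / 2) (by norm_num) (by norm_num), rfl⟩, ?_⟩
    funext l
    simp only [cst, Pi.sub_apply, Int.cast_sub, hc, Pi.smul_apply, smul_eq_mul]
    have h2 : ∀ c : Fin n, (Pi.single c (1 / 2) : Fin n → ℚ) l =
        (1 / 2) * (Pi.single c 1 : Fin n → ℚ) l := by
      intro c
      by_cases hl : l = c
      · subst hl; simp
      · simp [hl]
    rw [h2, h2]
    ring
  · refine ⟨(1 / 2 : ℚ) • (Pi.single t.1 1 + Pi.single t.2.1 1) -
      Pi.single t.2.2 (1 / 2), ⟨_, _, subp_two t.1 t.2.1,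
        subp_single t.2.2 (1 / 2) (by norm_num) (by norm_num), rfl⟩, ?_⟩
    funext l
    simp only [cst, Pi.sub_apply, Pi.add_apply, Int.cast_sub, Int.cast_add, hc, Pi.smul_apply,
      smul_eq_mul]
    have h2 : (Pi.single t.2.2 (1 / 2) : Fin n → ℚ) l =
        (1 / 2) * (Pi.single t.2.2 1 : Fin n → ℚ) l := by
      by_cases hl : l = t.2.2
      · subst hl; simp
      · simp [hl]
    rw [h2]
    ring

/-- A solution over the complex numbers makes the rows vanish. -/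
theorem rows_vanish {n : ℕ} {K : Type} [Field K] (U : Set (Fin n))
    (A : Set (Fin n × Fin n × Fin n)) (u0 : Fin n) (hu0 : u0 ∈ U)
    (x : Fin n → K) (h1 : ∀ i ∈ U, x i = 1) (h2 : ∀ t ∈ A, x t.1 + x t.2.1 = x t.2.2) :
    ∀ h ∈ rowsOf U A u0, ∑ i, (h i : K) * x i = 0 := by
  rintro h (⟨i, hi, rfl⟩ | ⟨t, ht, rfl⟩)
  · rw [rows_unit, h1 i hi, h1 u0 hu0, sub_self]
  · rw [rows_add, h2 t ht, sub_self]

theorem rows_solve {n : ℕ} {K : Type} [Field K] (U : Set (Fin n))
    (A : Set (Fin n × Fin n × Fin n)) (u0 : Fin n) (y : Fin n → K) (hy0 : y u0 = 1)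
    (h : ∀ h ∈ rowsOf U A u0, ∑ i, (h i : K) * y i = 0) :
    (∀ i ∈ U, y i = 1) ∧ ∀ t ∈ A, y t.1 + y t.2.1 = y t.2.2 := by
  constructor
  · intro i hi
    have h1 := h _ (Or.inl ⟨i, hi, rfl⟩)
    rw [rows_unit, hy0] at h1
    exact sub_eq_zero.1 h1
  · intro t ht
    have h1 := h _ (Or.inr ⟨t, ht, rfl⟩)
    rw [rows_add] at h1
    exact sub_eq_zero.1 h1

/-- The two determinant bounds for the matrix given by `core`. -/
theorem bounds {n : ℕ} {U : Set (Fin n)} {A : Set (Fin n × Fin n × Fin n)} {u0 : Fin n}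
    {F : Finset (Fin n)} {ρ : Fin n} {M : Matrix (Fin n) (Fin n) ℤ} (hρ : ρ ∉ F)
    (hMρ : M ρ = Pi.single u0 1) (hMF : ∀ i ∈ F, ∃ c, M i = Pi.single c 1)
    (hMH : ∀ i, i ∉ F → i ≠ ρ → M i ∈ rowsOf U A u0) :
    |M.det| ≤ 2 ^ (n - (F.card + 1)) ∧
      ∀ j, |(M.updateRow ρ (Pi.single j 1)).det| ≤ 2 ^ (n - (F.card + 1)) := by
  classical
  have hcard : (insert ρ F).card = F.card + 1 := card_insert_of_notMem hρ
  rw [← hcard]
  constructor
  · apply det_bound
    · intro i hi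
      rw [mem_insert] at hi
      rcases hi with rfl | hi
      · exact ⟨u0, hMρ⟩
      · exact hMF i hi
    · intro i hi
      rw [mem_insert] at hi
      push Not at hi
      exact rows_short U A u0 _ (hMH i hi.2 hi.1)
  · intro j
    apply det_bound
    · intro i hi
      rw [mem_insert] at hi
      by_cases hiρ : i = ρ
      · subst hiρ
        exact ⟨j, by rw [Matrix.updateRow_self]⟩
      · rw [Matrix.updateRow_ne hiρ]
        rcases hi with hi | hi
        · exact absurd hi hiρ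
        · exact hMF i hi
    · intro i hi
      rw [mem_insert] at hi
      push Not at hi
      rw [Matrix.updateRow_ne hi.1]
      exact rows_short U A u0 _ (hMH i hi.2 hi.1)

/-- Rational solutions given by quotients of small integers. -/
theorem rational_solution {n : ℕ} (U : Set (Fin n)) (A : Set (Fin n × Fin n × Fin n))
    (u0 : Fin n) (hu0 : u0 ∈ U) (x : Fin n → ℂ) (h1 : ∀ i ∈ U, x i = 1)
    (h2 : ∀ t ∈ A, x t.1 + x t.2.1 = x t.2.2) :
    ∃ (N : Fin n → ℤ) (D : ℤ), D ≠ 0 ∧ |D| ≤ 2 ^ (n - 1) ∧ (∀ j, |N j| ≤ 2 ^ (n - 1)) ∧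
      (∀ i ∈ U, ((N i : ℚ) / D) = 1) ∧
      ∀ t ∈ A, ((N t.1 : ℚ) / D) + ((N t.2.1 : ℚ) / D) = ((N t.2.2 : ℚ) / D) := by
  obtain ⟨F, ρ, M, hρ, hMρ, hMF, hMH, hdet, hspan, -⟩ :=
    core n (rowsOf U A u0) u0 x (h1 u0 hu0) (rows_vanish U A u0 hu0 x h1 h2)
  obtain ⟨hb1, hb2⟩ := bounds hρ hMρ hMF hMH
  have hle : (2 : ℤ) ^ (n - (F.card + 1)) ≤ 2 ^ (n - 1) :=
    pow_le_pow_right₀ (by norm_num) (by omega)
  refine ⟨fun j => M.adjugate j ρ, M.det, hdet, hb1.trans hle, ?_, ?_⟩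
  · intro j
    show |M.adjugate j ρ| ≤ 2 ^ (n - 1)
    rw [Matrix.adjugate_apply]
    exact (hb2 j).trans hle
  · have hmul : ∀ i, ∑ j, M i j * M.adjugate j ρ = if i = ρ then M.det else 0 := by
      intro i
      have h3 := congrFun (congrFun (Matrix.mul_adjugate M) i) ρ
      rw [Matrix.mul_apply] at h3
      rw [h3, Matrix.smul_apply, Matrix.one_apply]
      split_ifs <;> simp
    have hD : (M.det : ℚ) ≠ 0 := by exact_mod_cast hdet
    have hy : ∀ i, ∑ j, (M i j : ℚ) * ((M.adjugate j ρ : ℚ) / (M.det : ℚ)) =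
        if i = ρ then 1 else 0 := by
      intro i
      have h3 := hmul i
      have h4 : ∑ j, (M i j : ℚ) * (M.adjugate j ρ : ℚ) =
          if i = ρ then (M.det : ℚ) else 0 := by
        have h6 := congrArg (Int.cast : ℤ → ℚ) h3
        rw [Int.cast_sum] at h6
        simp only [Int.cast_mul, Int.cast_ite, Int.cast_zero] at h6
        exact h6
      have h5 : ∑ j, (M i j : ℚ) * ((M.adjugate j ρ : ℚ) / (M.det : ℚ)) =
          (∑ j, (M i j : ℚ) * (M.adjugate j ρ : ℚ)) / (M.det : ℚ) := by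
        rw [sum_div]
        exact sum_congr rfl fun j _ => by ring
      rw [h5, h4]
      split_ifs
      · exact div_self hD
      · simp
    have hy0 : ((M.adjugate u0 ρ : ℚ) / (M.det : ℚ)) = 1 := by
      have h3 := hy ρ
      rw [if_pos rfl, hMρ, sum_single_mul] at h3
      exact h3
    exact rows_solve U A u0 (fun j => (M.adjugate j ρ : ℚ) / (M.det : ℚ)) hy0
      (hspan _ fun i hi hiρ => by rw [hy i, if_neg hiρ])

/-- Small integer solutions. -/
theorem integer_solution {n : ℕ} (U : Set (Fin n)) (A : Set (Fin n × Fin n × Fin n))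
    (u0 : Fin n) (hu0 : u0 ∈ U) (x : Fin n → ℤ) (h1 : ∀ i ∈ U, x i = 1)
    (h2 : ∀ t ∈ A, x t.1 + x t.2.1 = x t.2.2) :
    ∃ y : Fin n → ℤ, (∀ j, |y j| ≤ 2 ^ (n - 1)) ∧
      (∀ i ∈ U, y i = 1) ∧ ∀ t ∈ A, y t.1 + y t.2.1 = y t.2.2 := by
  classical
  have h1c : ∀ i ∈ U, ((x i : ℤ) : ℂ) = 1 := fun i hi => by rw [h1 i hi]; norm_num
  have h2c : ∀ t ∈ A, ((x t.1 : ℤ) : ℂ) + ((x t.2.1 : ℤ) : ℂ) = ((x t.2.2 : ℤ) : ℂ) :=
    fun t ht => by rw [← h2 t ht]; push_cast; rfl
  have h1q : ∀ i ∈ U, ((x i : ℤ) : ℚ) = 1 := fun i hi => by rw [h1 i hi]; norm_num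
  have h2q : ∀ t ∈ A, ((x t.1 : ℤ) : ℚ) + ((x t.2.1 : ℤ) : ℚ) = ((x t.2.2 : ℤ) : ℚ) :=
    fun t ht => by rw [← h2 t ht]; push_cast; rfl
  obtain ⟨F, ρ, M, hρ, hMρ, hMF, hMH, hdet, hspan, hmax⟩ :=
    core n (rowsOf U A u0) u0 (fun i => (x i : ℂ)) (h1c u0 hu0)
      (rows_vanish U A u0 hu0 (fun i => (x i : ℂ)) h1c h2c)
  obtain ⟨hb1, hb2⟩ := bounds hρ hMρ hMF hMH
  set D := M.det with hD
  -- the reduction of the free coordinates modulo the determinant
  have hround : ∀ c : ℤ, ∃ t : ℤ, 2 * |c - D * t| ≤ |D| := by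
    intro c
    refine ⟨round ((c : ℚ) / D), ?_⟩
    have h3 := abs_sub_round ((c : ℚ) / D)
    have h4 : (0 : ℚ) < |(D : ℚ)| := abs_pos.2 (by exact_mod_cast hdet)
    have h5 : (2 : ℚ) * |(c : ℚ) - D * (round ((c : ℚ) / D) : ℤ)| ≤ |(D : ℚ)| := by
      have h6 : (c : ℚ) - D * (round ((c : ℚ) / D) : ℤ) =
          D * ((c : ℚ) / D - (round ((c : ℚ) / D) : ℤ)) := by
        have : (D : ℚ) ≠ 0 := by exact_mod_cast hdet
        field_simp
      rw [h6, abs_mul]
      nlinarith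
    have h7 : ((2 * |c - D * (round ((c : ℚ) / D))| : ℤ) : ℚ) ≤ ((|D| : ℤ) : ℚ) := by
      push_cast
      exact h5
    exact_mod_cast h7
  choose t0 ht0 using hround
  set t : Fin n → ℤ := fun i => if i ∈ F then t0 ((M.mulVec x) i) else 0 with ht
  set y : Fin n → ℤ := x - M.adjugate.mulVec t with hy
  have hMy : ∀ i, (M.mulVec y) i = (M.mulVec x) i - D * t i := by
    intro i
    rw [hy, Matrix.mulVec_sub, Matrix.mulVec_mulVec, Matrix.mul_adjugate, Matrix.smul_mulVec,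
      Matrix.one_mulVec]
    simp [hD]
  have hMx : ∀ i, i ∉ F → i ≠ ρ → (M.mulVec x) i = 0 := by
    intro i hi hiρ
    have h3 := rows_vanish U A u0 hu0 (fun i => (x i : ℚ)) h1q h2q _ (hMH i hi hiρ)
    have h4 : (((M.mulVec x) i : ℤ) : ℚ) = 0 := by
      rw [← h3]
      simp [Matrix.mulVec, dotProduct]
    exact_mod_cast h4
  have hMρ' : ∀ z : Fin n → ℤ, (M.mulVec z) ρ = z u0 := by
    intro z
    simp [Matrix.mulVec, hMρ]
  have hy0 : y u0 = 1 := by
    rw [← hMρ' y, hMy, hMρ' x, h1 u0 hu0, ht]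
    simp [hρ]
  have hMy0 : ∀ i, i ∉ F → i ≠ ρ → (M.mulVec y) i = 0 := by
    intro i hi hiρ
    rw [hMy, hMx i hi hiρ, ht]
    simp [hi]
  have hsol := rows_solve U A u0 (fun j => (y j : ℚ)) (by rw [hy0]; norm_num)
    (hspan _ fun i hi hiρ => by
      have h3 := hMy0 i hi hiρ
      have h4 : (((M.mulVec y) i : ℤ) : ℚ) = 0 := by rw [h3]; norm_num
      rw [← h4]
      simp [Matrix.mulVec, dotProduct])
  refine ⟨y, ?_, fun i hi => by exact_mod_cast hsol.1 i hi,
    fun t ht => by exact_mod_cast hsol.2 t ht⟩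
  intro j
  -- Cramer's rule
  have hcr : D * y j = M.adjugate j ρ + ∑ i ∈ F, M.adjugate j i * (M.mulVec y) i := by
    have h3 : (M.adjugate.mulVec (M.mulVec y)) j = D * y j := by
      rw [Matrix.mulVec_mulVec, Matrix.adjugate_mul, Matrix.smul_mulVec, Matrix.one_mulVec]
      simp [hD]
    rw [← h3]
    have h4 : (M.adjugate.mulVec (M.mulVec y)) j = ∑ i, M.adjugate j i * (M.mulVec y) i := rfl
    rw [h4, ← sum_subset (subset_univ (insert ρ F))]
    · rw [sum_insert hρ, hMρ', hy0, mul_one]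
    · intro i _ hi
      rw [mem_insert] at hi
      push Not at hi
      rw [hMy0 i hi.2 hi.1, mul_zero]
  set k := F.card with hk
  set R : ℤ := 2 ^ (n - (k + 1)) with hR
  have hDpos : 0 < |D| := abs_pos.2 hdet
  have hRpos : 0 < R := by rw [hR]; positivity
  have hsum : 2 * |∑ i ∈ F, M.adjugate j i * (M.mulVec y) i| ≤ k * (|D| * |D|) := by
    calc 2 * |∑ i ∈ F, M.adjugate j i * (M.mulVec y) i|
        ≤ 2 * ∑ i ∈ F, |M.adjugate j i * (M.mulVec y) i| := by
          have := abs_sum_le_sum_abs (fun i => M.adjugate j i * (M.mulVec y) i) F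
          linarith
      _ = ∑ i ∈ F, |M.adjugate j i| * (2 * |(M.mulVec y) i|) := by
          rw [mul_sum]
          exact sum_congr rfl fun i _ => by rw [abs_mul]; ring
      _ ≤ ∑ i ∈ F, |D| * |D| := by
          apply sum_le_sum
          intro i hi
          have h3 : |M.adjugate j i| ≤ |D| := by
            rw [Matrix.adjugate_apply]
            exact hmax i hi j
          have h4 : 2 * |(M.mulVec y) i| ≤ |D| := by
            rw [hMy i, ht]
            simp only [if_pos hi]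
            exact ht0 _
          exact mul_le_mul h3 h4 (by positivity) (abs_nonneg _)
      _ = k * (|D| * |D|) := by rw [sum_const, nsmul_eq_mul]
  have hρb : |M.adjugate j ρ| ≤ R := by
    rw [Matrix.adjugate_apply]
    exact hb2 j
  have hmain : |D| * (2 * |y j|) ≤ |D| * (2 * R + k * R) := by
    have h3 : |D| * (2 * |y j|) = 2 * |D * y j| := by rw [abs_mul]; ring
    rw [h3, hcr]
    have h4 := abs_add_le (M.adjugate j ρ) (∑ i ∈ F, M.adjugate j i * (M.mulVec y) i)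
    have h5 : (2 : ℤ) * R ≤ |D| * (2 * R) := by nlinarith
    have h6 : (k : ℤ) * (|D| * |D|) ≤ |D| * (k * R) := by
      have : |D| * |D| ≤ |D| * R := mul_le_mul_of_nonneg_left hb1 hDpos.le
      have hk0 : (0 : ℤ) ≤ k := by positivity
      nlinarith
    nlinarith
  have hmain' : 2 * |y j| ≤ 2 * R + k * R := le_of_mul_le_mul_left hmain hDpos
  have hkn : k + 1 ≤ n := by
    have h3 : (insert ρ F).card ≤ n := by
      have := card_le_univ (insert ρ F)
      simpa using this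
    rw [card_insert_of_notMem hρ] at h3
    exact h3
  have hpow : (2 : ℤ) ^ (n - 1) = 2 ^ k * R := by
    rw [hR, ← pow_add]
    congr 1
    omega
  have hk2 : ((k : ℤ) + 2) ≤ 2 ^ (k + 1) := by
    have h3 : ∀ m : ℕ, m + 2 ≤ 2 ^ (m + 1) := by
      intro m
      induction m with
      | zero => norm_num
      | succ m ih => rw [pow_succ]; omega
    exact_mod_cast h3 k
  rw [hpow]
  have h7 : 2 * |y j| ≤ 2 * (2 ^ k * R) := by
    calc 2 * |y j| ≤ ((k : ℤ) + 2) * R := by linarith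
      _ ≤ 2 ^ (k + 1) * R := mul_le_mul_of_nonneg_right hk2 hRpos.le
      _ = 2 * (2 ^ k * R) := by rw [pow_succ]; ring
  linarith

end Q6.Add
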